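import Pool.Agent.Helper74.UB.Goals2

/-!
# UB-EVB: the number of events in one component
-/

set_option autoImplicit false

namespace Pool.Agent.Helper93.UB

open Finset Equiv Helper28.VF
open scoped Classical
open Pool.Agent.Helper74.UB

section one
variable {D V E F : Type} [Fintype D] [Fintype V] [Fintype E] [Fintype F] {M : PM D V E F}
  {A Q : ℕ → Finset V} {X : Finset V} {T : ℕ}

theorem evO_zero (R : Route M A Q X T) (O : Finset V) : evO R O 0 = 0 := by
  unfold evO
  simp

theorem evO_succ (R : Route M A Q X T) (O : Finset V) (r : ℕ) :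
    evO R O (r + 1) = evO R O r + (if R.p r 0 ∈ O then 1 else 0) := by
  unfold evO
  rw [Finset.range_add_one, Finset.filter_insert]
  split_ifs with h
  · rw [Finset.card_insert_of_notMem]
    simp
  · rfl

theorem far_symm {R₁ R₂ : Route M A Q X T} (h : R₁.Far R₂) (hs : ∀ u v : V, Ad M u v → Ad M v u) :
    R₂.Far R₁ := by
  intro s hs' i hi hi' j hj hj'
  have := h s hs' j hj hj' i hi hi'
  exact ⟨fun e => this.1 e.symm, fun e => this.2 (hs _ _ e)⟩

theorem ad_symm (u v : V) (h : Ad M u v) : Ad M v u := by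
  obtain ⟨d, h1, h2⟩ := h
  refine ⟨M.α d, h2, ?_⟩
  unfold tg
  rw [M.α_inv]
  exact h1

end one

theorem evb (hK : StmtK2) (hG : StmtGrow) (hP : StmtP2) : StmtEvb := by
  intro D V E F _ _ _ _ M c v₀ A Q hF T X hC R₁ R₂ hfar t O htT hH hO
  have hstep : ∀ s < t, be M O (A s) + 2 * ((if R₁.p s 0 ∈ O then 1 else 0) +
      (if R₂.p s 0 ∈ O then 1 else 0)) ≤ be M O (A (s + 1)) := by
    intro s hs
    have h1 := hK D V E F M c v₀ A Q hF T X hC R₁ R₂ s t O (lt_of_lt_of_le hs htT) hs.le htT
      (hH s hs) hO
    have h2 := hG D V E F M c v₀ A Q hF s t O hs.le hO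
    omega
  have h1 : ∀ r ≤ t, 2 * (evO R₁ O r + evO R₂ O r) ≤ be M O (A r) := by
    intro r
    induction r with
    | zero => intro _; rw [evO_zero, evO_zero]; omega
    | succ r ih =>
      intro hr
      have a := ih (by omega)
      have b := hstep r (by omega)
      rw [evO_succ, evO_succ]
      omega
  have hp2 : ∀ r < t, (R₁.p r 0 ∈ O ∨ R₂.p r 0 ∈ O) → be M O (A (r + 1)) + 4 ≤ (bd M O).card := by
    intro r hr h
    rcases h with h | h
    · exact hP D V E F M c v₀ A Q hF T X hC R₁ R₂ hfar r t O hr htT hO h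
    · exact hP D V E F M c v₀ A Q hF T X hC R₂ R₁ (far_symm hfar ad_symm) r t O hr htT hO h
  have hOc : 1 ≤ O.card := Finset.card_pos.2 hO.ne
  refine ⟨h1 t le_rfl, ?_, ?_⟩
  · intro hb
    have h2 : ∀ r ≤ t, 2 * (evO R₁ O r + evO R₂ O r) ≤ 3 * O.card := by
      intro r
      induction r with
      | zero => intro _; rw [evO_zero, evO_zero]; omega
      | succ r ih =>
        intro hr
        by_cases h : R₁.p r 0 ∈ O ∨ R₂.p r 0 ∈ O
        · have a := hp2 r (by omega) h
          have b := h1 (r + 1) hr
          omega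
        · push Not at h
          have a := ih (by omega)
          rw [evO_succ, evO_succ, if_neg h.1, if_neg h.2]
          omega
    exact h2 t le_rfl
  · intro ht hR1 hR2 hhf
    have h3 : ∀ r, r + 1 ≤ t → 2 * (evO R₁ O (r + 1) + evO R₂ O (r + 1)) + 2 ≤
        be M O (A (r + 1)) := by
      intro r
      induction r with
      | zero =>
        intro hr
        have a := hG D V E F M c v₀ A Q hF 0 t O (Nat.zero_le _) hO
        rw [evO_succ, evO_succ, evO_zero, evO_zero, if_neg hR1, if_neg hR2]
        omega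
      | succ r ih =>
        intro hr
        have a := ih (by omega)
        have b := hstep (r + 1) (by omega)
        rw [evO_succ R₁ O (r + 1), evO_succ R₂ O (r + 1)]
        omega
    obtain ⟨t', rfl⟩ : ∃ t', t = t' + 1 := ⟨t - 1, by omega⟩
    refine ⟨h3 t' le_rfl, ?_⟩
    intro hb
    have h4 : ∀ r, r ≤ t' → 2 * (evO R₁ O (r + 1) + evO R₂ O (r + 1)) + 2 ≤ 3 * O.card := by
      intro r
      induction r with
      | zero =>
        intro hr
        rw [evO_succ, evO_succ, evO_zero, evO_zero, if_neg hR1, if_neg hR2]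
        omega
      | succ r ih =>
        intro hr
        by_cases h : R₁.p (r + 1) 0 ∈ O ∨ R₂.p (r + 1) 0 ∈ O
        · have a := hp2 (r + 1) (by omega) h
          have b := h3 (r + 1) (by omega)
          omega
        · push Not at h
          have a := ih (by omega)
          rw [evO_succ R₁ O (r + 1), evO_succ R₂ O (r + 1), if_neg h.1, if_neg h.2]
          omega
    exact h4 t' le_rfl

end Pool.Agent.Helper93.UB
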